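import Pool.Agent.Helper53.SL.St

/-!
Module KRO of project SL (helper53): Kronecker's theorem on Hankel determinants.
-/

set_option autoImplicit false

open Polynomial

noncomputable section

namespace Pool.Agent.Helper43.SL

open Pool.Agent.Helper53.SL

theorem sh_pow (k : ℕ) (y : ℕ → ℚ) (i : ℕ) : ((sh ℚ) ^ k) y i = y (i + k) := by
  induction k generalizing y i with
  | zero => rfl
  | succ k ih =>
    rw [pow_succ, Module.End.mul_apply, ih]
    rfl

/-- the functional -/
def Lam (x : ℕ → ℚ) : ℚ[X] →ₗ[ℚ] ℚ where
  toFun f := aeval (sh ℚ) f x 0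
  map_add' := by intro f g; simp
  map_smul' := by intro c f; simp

theorem Lam_mul (x : ℕ → ℚ) (f : ℚ[X]) (k : ℕ) : Lam x (f * X ^ k) = aeval (sh ℚ) f x k := by
  show aeval (sh ℚ) (f * X ^ k) x 0 = _
  rw [mul_comm f, map_mul, map_pow, aeval_X, Module.End.mul_apply, sh_pow, zero_add]

theorem Lam_X (x : ℕ → ℚ) (k : ℕ) : Lam x (X ^ k) = x k := by
  have h := Lam_mul x 1 k
  rw [one_mul] at h
  rw [h]
  simp

theorem Lam_expand (x : ℕ → ℚ) (b g : ℚ[X]) (n : ℕ) (hn : g.natDegree < n) :
    Lam x (b * g) = ∑ i ∈ Finset.range n, g.coeff i * Lam x (b * X ^ i) := by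
  conv_lhs => rw [as_sum_range' g n hn, Finset.mul_sum, map_sum]
  refine Finset.sum_congr rfl fun i _ => ?_
  rw [← C_mul_X_pow_eq_monomial, ← smul_eq_C_mul, mul_smul_comm, map_smul, smul_eq_mul]

theorem Lam_hank (x : ℕ → ℚ) (s : ℚ[X]) (n k : ℕ) (hn : s.natDegree < n) :
    Lam x (s * X ^ k) = ∑ i : Fin n, x (k + i) * s.coeff i := by
  rw [mul_comm, Lam_expand x (X ^ k) s n hn, Finset.sum_range]
  refine Finset.sum_congr rfl fun i _ => ?_
  rw [← pow_add, Lam_X, mul_comm]

/-- the Hankel matrix -/
def Hm (x : ℕ → ℚ) (n : ℕ) : Matrix (Fin n) (Fin n) ℚ := Matrix.of fun i j : Fin n => x (i + j)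

theorem partA (x : ℕ → ℚ) (r : ℕ) (hr : (Hm x r).det ≠ 0) (s : ℚ[X]) (hs : s.degree < r)
    (h : ∀ k < r, Lam x (s * X ^ k) = 0) : s = 0 := by
  by_contra hs0
  have hn : s.natDegree < r := by
    rw [degree_eq_natDegree hs0] at hs
    exact_mod_cast hs
  have h1 : (Hm x r).mulVec (fun i : Fin r => s.coeff i) = 0 := by
    funext k
    have h2 := h k k.2
    rw [Lam_hank x s r k hn] at h2
    exact h2
  have h2 := Matrix.eq_zero_of_mulVec_eq_zero hr h1
  apply hs0
  ext i
  rw [coeff_zero]
  by_cases hi : i < r
  · exact congrFun h2 ⟨i, hi⟩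
  · exact coeff_eq_zero_of_natDegree_lt (by omega)

theorem partB (x : ℕ → ℚ) (n : ℕ) (hn : (Hm x n).det = 0) :
    ∃ u : ℚ[X], u ≠ 0 ∧ u.degree < n ∧ ∀ k < n, Lam x (u * X ^ k) = 0 := by
  obtain ⟨v, hv0, hv⟩ := Matrix.exists_mulVec_eq_zero_iff.2 hn
  set u : ℚ[X] := ∑ i : Fin n, C (v i) * X ^ (i : ℕ) with hu
  have hcoeff : ∀ i : Fin n, u.coeff i = v i := by
    intro i
    rw [hu, finsetSum_coeff]
    rw [Finset.sum_eq_single i]
    · simp
    · intro j _ hj
      rw [coeff_C_mul, coeff_X_pow, if_neg, mul_zero]
      intro h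
      exact hj (Fin.ext h.symm)
    · simp
  have hdeg : u.degree < n := by
    rw [hu]
    refine (degree_sum_fin_lt v)
  have hu0 : u ≠ 0 := by
    intro h
    apply hv0
    funext i
    rw [← hcoeff i, h, coeff_zero]
    rfl
  refine ⟨u, hu0, hdeg, ?_⟩
  intro k hk
  have hnat : u.natDegree < n := by
    rw [degree_eq_natDegree hu0] at hdeg
    exact_mod_cast hdeg
  rw [Lam_hank x u n k hnat]
  have h1 := congrFun hv ⟨k, hk⟩
  simp only [hcoeff]
  exact h1

theorem hKro : StKro := by
  intro x hx
  obtain ⟨p, hp⟩ := hx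
  classical
  set r := Nat.findGreatest (fun n => (Hm x n).det ≠ 0) p with hr
  have hr0 : (Hm x r).det ≠ 0 := by
    have h0 : (Hm x 0).det ≠ 0 := by
      rw [Matrix.det_isEmpty]
      exact one_ne_zero
    exact Nat.findGreatest_spec (P := fun n => (Hm x n).det ≠ 0) (Nat.zero_le p) h0
  have hr1 : ∀ n, r < n → (Hm x n).det = 0 := by
    intro n hn
    by_cases h : n ≤ p
    · by_contra h'
      exact Nat.findGreatest_is_greatest (P := fun n => (Hm x n).det ≠ 0) hn h h'
    · exact hp n (by omega)
  obtain ⟨b, hb0, hbd, hb⟩ := partB x (r + 1) (hr1 _ (Nat.lt_succ_self r))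
  have hbr : b.natDegree = r := by
    have h1 : b.natDegree < r + 1 := by
      rw [degree_eq_natDegree hb0] at hbd
      exact_mod_cast hbd
    by_contra h2
    have h3 : b.natDegree < r := by omega
    apply hb0
    refine partA x r hr0 b ?_ fun k hk => hb k (by omega)
    rw [degree_eq_natDegree hb0]
    exact_mod_cast h3
  have main : ∀ m, Lam x (b * X ^ m) = 0 := by
    intro m
    induction m using Nat.strong_induction_on with
    | _ m ih =>
      by_cases hm : m < r + 1
      · exact hb m hm
      push Not at hm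
      -- products with polynomials of degree less than m
      have ih' : ∀ g : ℚ[X], g.natDegree < m → Lam x (b * g) = 0 := by
        intro g hg
        rw [Lam_expand x b g m hg]
        refine Finset.sum_eq_zero fun i hi => ?_
        rw [ih i (Finset.mem_range.1 hi), mul_zero]
      obtain ⟨u, hu0, hud, hu⟩ := partB x (m + 1) (hr1 _ (by omega))
      have hun : u.natDegree ≤ m := by
        rw [degree_eq_natDegree hu0] at hud
        have : u.natDegree < m + 1 := by exact_mod_cast hud
        omega
      set q := u / b with hq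
      set s := u % b with hs
      have hdiv : b * q + s = u := EuclideanDomain.div_add_mod u b
      have hsd : s.degree < b.degree := degree_mod_lt u hb0
      have hsr : s.degree < r := by
        rw [degree_eq_natDegree hb0, hbr] at hsd
        exact hsd
      have hqn : q.natDegree + r ≤ m := by
        by_cases hq0 : q = 0
        · rw [hq0, natDegree_zero]; omega
        have h1 : (b * q).natDegree = r + q.natDegree := by
          rw [natDegree_mul hb0 hq0, hbr]
        have h2 : b * q = u - s := by rw [← hdiv]; ring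
        have h3 : (b * q).natDegree ≤ m := by
          rw [h2]
          refine (natDegree_sub_le u s).trans (max_le hun ?_)
          by_cases hs0 : s = 0
          · rw [hs0, natDegree_zero]; omega
          · rw [degree_eq_natDegree hs0] at hsr
            have : s.natDegree < r := by exact_mod_cast hsr
            omega
        omega
      have hs0 : s = 0 := by
        refine partA x r hr0 s hsr fun k hk => ?_
        have h1 : s * X ^ k = u * X ^ k - b * (q * X ^ k) := by rw [← hdiv]; ring
        rw [h1, map_sub, hu k (by omega), ih', sub_zero]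
        refine (natDegree_mul_le).trans_lt ?_
        rw [natDegree_X_pow]
        omega
      have hub : u = b * q := by rw [← hdiv, hs0, add_zero]
      have hq0 : q ≠ 0 := by
        intro h
        apply hu0
        rw [hub, h, mul_zero]
      have h1 := hu (m - q.natDegree) (by omega)
      rw [hub, mul_assoc, Lam_expand x b (q * X ^ (m - q.natDegree)) (m + 1),
        Finset.sum_range_succ, Finset.sum_eq_zero, zero_add] at h1
      · have h2 : (q * X ^ (m - q.natDegree)).coeff m = q.leadingCoeff := by
          have h3 : (q * X ^ (m - q.natDegree)).coeff (q.natDegree + (m - q.natDegree)) =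
            q.coeff q.natDegree := coeff_mul_X_pow q _ _
          rw [show q.natDegree + (m - q.natDegree) = m by omega] at h3
          exact h3
        rw [h2] at h1
        exact (mul_eq_zero.1 h1).resolve_left (leadingCoeff_ne_zero.2 hq0)
      · intro i hi
        rw [ih i (Finset.mem_range.1 hi), mul_zero]
      · refine (natDegree_mul_le).trans_lt ?_
        rw [natDegree_X_pow]
        omega
  refine ⟨b, hb0, ?_⟩
  funext k
  rw [← Lam_mul, main k]
  rfl

end Pool.Agent.Helper43.SL

end
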